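import Mathlib
import Pool.Agent.Helper62.D4.Basic

/-! Degree bounds for algebraic functions (module M5 of the depth-4 PIT project of helper62). -/

namespace Pool.Agent.Helper41.D4

open Pool.Agent.Helper62.D4 MvPolynomial
open scoped WithZero

/-- The degree valuation on polynomials. -/
noncomputable def degVal (n : ℕ) : Valuation (Ar n) (ℤᵐ⁰) := by
  classical exact
  { toFun := fun a => if a = 0 then 0 else WithZero.exp (a.totalDegree : ℤ)
    map_zero' := by simp
    map_one' := by simp
    map_mul' := by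
      intro a b
      by_cases ha : a = 0
      · simp [ha]
      by_cases hb : b = 0
      · simp [hb]
      simp only [mul_eq_zero, ha, hb, or_self, if_false]
      rw [MvPolynomial.totalDegree_mul_of_isDomain ha hb]
      push_cast
      rw [WithZero.exp_add]
    map_add_le_max' := by
      intro a b
      by_cases ha : a = 0
      · simp [ha]
      by_cases hb : b = 0
      · simp [hb]
      by_cases hab : a + b = 0
      · simp [hab]
      simp only [ha, hb, hab, if_false]
      have h := MvPolynomial.totalDegree_add a b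
      rcases le_max_iff.mp h with h | h
      · exact le_max_of_le_left (WithZero.exp_le_exp.mpr (by exact_mod_cast h))
      · exact le_max_of_le_right (WithZero.exp_le_exp.mpr (by exact_mod_cast h)) }

theorem degVal_of_ne {n : ℕ} {a : Ar n} (ha : a ≠ 0) :
    degVal n a = WithZero.exp (a.totalDegree : ℤ) := by
  classical
  change (if a = 0 then 0 else WithZero.exp (a.totalDegree : ℤ)) = _
  simp [ha]

theorem degVal_supp {n : ℕ} : nonZeroDivisors (Ar n) ≤ (degVal n).supp.primeCompl := by
  intro a ha h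
  have h1 : degVal n a = 0 := h
  have ha0 : a ≠ 0 := nonZeroDivisors.ne_zero ha
  rw [degVal_of_ne ha0] at h1
  exact WithZero.exp_ne_zero h1

/-- The degree valuation on rational functions. -/
noncomputable def degK (n : ℕ) : Valuation (Kr n) (ℤᵐ⁰) :=
  (degVal n).extendToLocalization degVal_supp (Kr n)

theorem degK_alg {n : ℕ} (a : Ar n) : degK n (algebraMap (Ar n) (Kr n) a) = degVal n a :=
  Valuation.extendToLocalization_apply_map_apply _ _ _ _

theorem degVal_le {n : ℕ} (a : Ar n) {D : ℕ} (h : a.totalDegree ≤ D) :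
    degVal n a ≤ WithZero.exp (D : ℤ) := by
  by_cases ha : a = 0
  · simp [ha]
  · rw [degVal_of_ne ha]
    exact WithZero.exp_le_exp.mpr (by exact_mod_cast h)

theorem le_of_degVal {n : ℕ} (a : Ar n) {D : ℕ} (h : degVal n a ≤ WithZero.exp (D : ℤ)) :
    a.totalDegree ≤ D := by
  by_cases ha : a = 0
  · simp [ha]
  · rw [degVal_of_ne ha, WithZero.exp_le_exp] at h
    exact_mod_cast h

/-- The variable `X_0` in the rational functions. -/
noncomputable def X0 (n : ℕ) : Kr (n+1) := algebraMap (Ar (n+1)) (Kr (n+1)) (X 0)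

theorem X0_ne (n : ℕ) : X0 n ≠ 0 := by
  unfold X0
  rw [Ne, map_eq_zero_iff _ (IsFractionRing.injective (Ar (n+1)) (Kr (n+1)))]
  exact MvPolynomial.X_ne_zero 0

theorem degK_X0 (n : ℕ) : degK (n+1) (X0 n) = WithZero.exp (1 : ℤ) := by
  rw [X0, degK_alg, degVal_of_ne (MvPolynomial.X_ne_zero 0), MvPolynomial.totalDegree_X]
  simp

theorem degK_X0inv (n D : ℕ) : degK (n+1) ((X0 n)⁻¹ ^ D) = WithZero.exp (-(D:ℤ)) := by
  rw [map_pow, map_inv₀, degK_X0]
  rw [← WithZero.exp_neg, ← WithZero.exp_nsmul]
  simp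

/-- The ring of rational functions of degree at most `0`. -/
noncomputable abbrev OK (n : ℕ) : Subring (Kr n) := (degK n).integer

theorem mem_OK {n : ℕ} {D : ℕ} (a : Ar (n+1)) (h : a.totalDegree ≤ D) :
    algebraMap (Ar (n+1)) (Kr (n+1)) a * (X0 n)⁻¹ ^ D ∈ OK (n+1) := by
  change degK (n+1) _ ≤ 1
  rw [map_mul, degK_alg, degK_X0inv]
  calc degVal (n+1) a * WithZero.exp (-(D:ℤ)) ≤ WithZero.exp (D:ℤ) * WithZero.exp (-(D:ℤ)) :=
        mul_le_mul_left (degVal_le a h) _
    _ = 1 := by rw [← WithZero.exp_add]; simp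

theorem of_mem_OK {n : ℕ} {D : ℕ} (a : Ar (n+1))
    (h : algebraMap (Ar (n+1)) (Kr (n+1)) a * (X0 n)⁻¹ ^ D ∈ OK (n+1)) : a.totalDegree ≤ D := by
  change degK (n+1) _ ≤ 1 at h
  rw [map_mul, degK_alg, degK_X0inv] at h
  apply le_of_degVal
  have h2 := mul_le_mul_left h (WithZero.exp (D:ℤ))
  rw [mul_assoc, ← WithZero.exp_add, one_mul] at h2
  simpa using h2

/-- The degree bound on algebraic functions. -/
def Bd (n : ℕ) (D : ℕ) (x : Wr (n+1)) : Prop :=
  IsIntegral (OK (n+1)) (x * algebraMap (Kr (n+1)) (Wr (n+1)) ((X0 n)⁻¹ ^ D))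

theorem isIntegral_alg_iff {n : ℕ} (y : Kr n) :
    IsIntegral (OK n) (algebraMap (Kr n) (Wr n) y) ↔ y ∈ OK n := by
  constructor
  · intro h
    have h1 : IsIntegral (OK n) y :=
      (isIntegral_algebraMap_iff (algebraMap (Kr n) (Wr n)).injective).mp h
    exact Valuation.Integers.mem_of_integral (Valuation.integer.integers (degK n)) h1
  · intro h
    have : algebraMap (Kr n) (Wr n) y = algebraMap (OK n) (Wr n) ⟨y, h⟩ := rfl
    rw [this]
    exact isIntegral_algebraMap

theorem exists_Bd (n : ℕ) : ∃ Bd : ℕ → Wr n → Prop,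
    (∀ D (a : Ar n), a.totalDegree ≤ D → Bd D (algebraMap (Ar n) (Wr n) a)) ∧
    (∀ D x y, Bd D x → Bd D y → Bd D (x + y)) ∧
    (∀ D E x y, Bd D x → Bd E y → Bd (D + E) (x * y)) ∧
    (∀ D E x, D ≤ E → Bd D x → Bd E x) ∧
    (∀ (p : Polynomial (Ar n)) (c : Wr n), p.Monic →
      (∀ i ≤ p.natDegree, (p.coeff i).totalDegree ≤ p.natDegree - i) →
        Polynomial.aeval c p = 0 → Bd 1 c) ∧
    (∀ D (a : Ar n), Bd D (algebraMap (Ar n) (Wr n) a) → a.totalDegree ≤ D) := by
  cases n with
  | zero =>
    refine ⟨fun _ _ => True, by simp, by simp, by simp, by simp, by simp, ?_⟩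
    intro D a _
    rw [MvPolynomial.eq_C_of_isEmpty a]
    simp
  | succ n =>
    refine ⟨Bd n, ?_, ?_, ?_, ?_, ?_, ?_⟩
    · intro D a h
      unfold Bd
      rw [IsScalarTower.algebraMap_apply (Ar (n+1)) (Kr (n+1)) (Wr (n+1)), ← map_mul,
        isIntegral_alg_iff]
      exact mem_OK a h
    · intro D x y hx hy
      unfold Bd at *
      rw [add_mul]
      exact hx.add hy
    · intro D E x y hx hy
      unfold Bd at *
      have h := hx.mul hy
      rw [pow_add, map_mul, mul_mul_mul_comm]
      exact h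
    · intro D E x h hx
      unfold Bd at *
      obtain ⟨k, rfl⟩ := Nat.exists_eq_add_of_le h
      have h1 : IsIntegral (OK (n+1)) (algebraMap (Kr (n+1)) (Wr (n+1)) ((X0 n)⁻¹ ^ k)) := by
        rw [isIntegral_alg_iff]
        have := mem_OK (n := n) (D := k) (1 : Ar (n+1)) (by simp)
        simpa using this
      have h := hx.mul h1
      rw [pow_add, map_mul, ← mul_assoc]
      exact h
    · intro p c hp hdeg hc
      unfold Bd
      set q : Polynomial (Kr (n+1)) := p.map (algebraMap (Ar (n+1)) (Kr (n+1))) with hq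
      have hqm : q.Monic := hp.map _
      have hqd : q.natDegree = p.natDegree := hp.natDegree_map _
      have hqc : Polynomial.aeval c q = 0 := by
        rw [hq, Polynomial.aeval_map_algebraMap, hc]
      set r : Polynomial (Kr (n+1)) := q.scaleRoots (X0 n)⁻¹ with hr
      have hrm : r.Monic := (Polynomial.monic_scaleRoots_iff _).mpr hqm
      have hrc : Polynomial.aeval (algebraMap (Kr (n+1)) (Wr (n+1)) (X0 n)⁻¹ * c) r = 0 :=
        Polynomial.scaleRoots_aeval_eq_zero hqc
      have hcoef : ∀ i, r.coeff i ∈ OK (n+1) := by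
        intro i
        rw [hr, Polynomial.coeff_scaleRoots, hqd, hq, Polynomial.coeff_map]
        by_cases hi : i ≤ p.natDegree
        · exact mem_OK _ (hdeg i hi)
        · have : p.coeff i = 0 := Polynomial.coeff_eq_zero_of_natDegree_lt (not_le.mp hi)
          rw [this]
          simp
      have hcoefs : (↑r.coeffs : Set (Kr (n+1))) ⊆ OK (n+1) := by
        intro y hy
        obtain ⟨i, _, rfl⟩ := Polynomial.mem_coeffs_iff.mp (Finset.mem_coe.mp hy)
        exact hcoef i
      rw [pow_one, mul_comm]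
      refine ⟨r.toSubring (OK (n+1)) hcoefs, ?_, ?_⟩
      · rw [Polynomial.monic_toSubring]
        exact hrm
      · rw [Polynomial.aeval_def] at hrc
        have h3 : (r.toSubring (OK (n+1)) hcoefs).map (algebraMap (OK (n+1)) (Kr (n+1))) = r := by
          ext i
          rw [Polynomial.coeff_map]
          exact Polynomial.coeff_toSubring (hp := hcoefs)
        rw [← h3, Polynomial.eval₂_map] at hrc
        exact hrc
    · intro D a h
      unfold Bd at h
      rw [IsScalarTower.algebraMap_apply (Ar (n+1)) (Kr (n+1)) (Wr (n+1)), ← map_mul,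
        isIntegral_alg_iff] at h
      exact of_mem_OK a h

end Pool.Agent.Helper41.D4
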